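import Pool.Agent.L0h98.KC.Def

set_option autoImplicit false

/-!
# Project KC, module EMB
-/

namespace Pool.Agent.L0h9.KC

open Finset Classical
open Pool.Agent.N404.LF (cnt)
open Pool.Agent.L0h98.KC

/-- A map with given fibre sizes. -/
theorem exists_map {Y A : Type} [Fintype Y] [Fintype A] (g : A → ℕ)
    (h : ∑ a, g a = Fintype.card Y) : ∃ f : Y → A, ∀ a, cnt f a = g a := by
  have e : Y ≃ Σ a, Fin (g a) := Fintype.equivOfCardEq (by simp [h])
  refine ⟨fun y => (e y).1, fun a => ?_⟩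
  have h1 : cnt (fun y => (e y).1) a = Fintype.card {y // (e y).1 = a} := by
    unfold cnt
    rw [Fintype.card_subtype]
  rw [h1]
  have e2 : {y // (e y).1 = a} ≃ {x : Σ a, Fin (g a) // x.1 = a} :=
    e.subtypeEquiv fun y => Iff.rfl
  rw [Fintype.card_congr (e2.trans (Equiv.sigmaSubtype a)), Fintype.card_fin]

theorem sum_filter_cnt {Y A : Type} [Fintype A] (Z : Finset Y) (f : Y → A) (g : A → ℕ) :
    ∑ y ∈ Z, g (f y) = ∑ a, (Z.filter fun y => f y = a).card * g a := by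
  rw [← Finset.sum_fiberwise Z f (fun y => g (f y))]
  refine Finset.sum_congr rfl fun a _ => ?_
  rw [Finset.sum_congr rfl (g := fun _ => g a) (fun y hy => by rw [(mem_filter.1 hy).2]),
    Finset.sum_const, smul_eq_mul]

theorem pairing {R U : Type} [Fintype R] [Fintype U] (T : Finset R) (cr : R → U)
    (h : ∀ u, Even (T.filter fun i => cr i = u).card) :
    ∃ (n : ℕ) (e : Fin n × Bool → R), Function.Injective e ∧ (∀ i, i ∈ T ↔ ∃ p, e p = i) ∧
      ∀ l, cr (e (l, true)) = cr (e (l, false)) := by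
  choose hu hhu using h
  have E : ∀ u, Fin (hu u) × Bool ≃ {i // i ∈ T.filter fun i => cr i = u} := fun u =>
    Fintype.equivOfCardEq (by
      rw [Fintype.card_coe, hhu u]
      simp [mul_two])
  have φ : Fin (∑ u, hu u) ≃ Σ u, Fin (hu u) := Fintype.equivOfCardEq (by simp)
  let E' : (Σ u, Fin (hu u) × Bool) → R := fun x => (E x.1 x.2).1
  have hE' : ∀ x, E' x ∈ T ∧ cr (E' x) = x.1 := fun x => mem_filter.1 (E x.1 x.2).2
  have hinj : Function.Injective E' := by
    rintro ⟨u, x⟩ ⟨u', x'⟩ hx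
    have h1 : u = u' := by
      have h3 := (hE' ⟨u, x⟩).2
      rw [hx] at h3
      exact h3.symm.trans (hE' ⟨u', x'⟩).2
    subst h1
    have h2 : E u x = E u x' := Subtype.ext hx
    rw [(E u).injective h2]
  refine ⟨_, fun p => E' (Equiv.sigmaProdDistrib _ _ (φ p.1, p.2)), ?_, fun i => ⟨fun hi => ?_, ?_⟩,
    fun l => ?_⟩
  · intro p q hpq
    have h1 := (Equiv.sigmaProdDistrib _ _).injective (hinj hpq)
    obtain ⟨h2, h3⟩ := Prod.mk.inj h1
    exact Prod.ext (φ.injective h2) h3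
  · have hi' : i ∈ T.filter fun j => cr j = cr i := mem_filter.2 ⟨hi, rfl⟩
    refine ⟨(φ.symm ⟨cr i, ((E (cr i)).symm ⟨i, hi'⟩).1⟩, ((E (cr i)).symm ⟨i, hi'⟩).2), ?_⟩
    simp [E']
  · rintro ⟨p, rfl⟩
    exact (hE' _).1
  · rw [(hE' _).2, (hE' _).2]
    rfl

theorem split {Y U : Type} [Fintype Y] [Fintype U] (f : Y → U) (m : U → ℕ)
    (h : ∀ u, m u ≤ cnt f u) : ∃ Z : Finset Y, (∀ u, (Z.filter fun y => f y = u).card = m u) ∧
      ∀ u, (Zᶜ.filter fun y => f y = u).card = cnt f u - m u := by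
  have h1 : ∀ u, ∃ Z : Finset Y, Z ⊆ (univ.filter fun y => f y = u) ∧ Z.card = m u :=
    fun u => Finset.exists_subset_card_eq (h u)
  choose Z hZ1 hZ2 using h1
  have h2 : ∀ u, ((univ.filter fun y => y ∈ Z (f y)).filter fun y => f y = u) = Z u := by
    intro u
    ext y
    simp only [mem_filter, mem_univ, true_and]
    constructor
    · rintro ⟨h3, rfl⟩
      exact h3
    · intro h3
      have h4 : f y = u := (mem_filter.1 (hZ1 u h3)).2
      exact ⟨by rwa [h4], h4⟩
  refine ⟨univ.filter fun y => y ∈ Z (f y), fun u => by rw [h2, hZ2], fun u => ?_⟩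
  have h3 : ((univ.filter fun y => y ∈ Z (f y))ᶜ.filter fun y => f y = u) =
      (univ.filter fun y => f y = u) \ Z u := by
    ext y
    simp only [mem_filter, mem_univ, true_and, mem_compl, mem_sdiff]
    constructor
    · rintro ⟨h3, rfl⟩
      exact ⟨rfl, h3⟩
    · rintro ⟨rfl, h3⟩
      exact ⟨h3, rfl⟩
  rw [h3, Finset.card_sdiff_of_subset (hZ1 u), hZ2]
  rfl

theorem cnt_elim {Y Y' A : Type} [Fintype Y] [Fintype Y'] (f : Y → A) (g : Y' → A) (x : A) :
    cnt (Sum.elim f g) x = cnt f x + cnt g x := by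
  unfold cnt
  rw [Finset.card_filter, Finset.card_filter, Finset.card_filter, Fintype.sum_sum_type]
  rfl

theorem cnt_ne_zero {Y A : Type} [Fintype Y] (f : Y → A) (y : Y) : cnt f (f y) ≠ 0 := by
  unfold cnt
  exact (Finset.card_pos.2 ⟨y, by simp⟩).ne'

theorem t_EMB (h : S_DIC) : S_EMB := by
  intro S _ _ Δ
  obtain ⟨K, hK⟩ := h ((S → Fin (Δ + 1)) ⊕ (S → Fin (Δ + 1))) S
    (fun j s => Sum.elim (fun u => ((u s : ℕ) : ℤ)) (fun u => -((u s : ℕ) : ℤ)) j)
  refine ⟨Fintype.card (S → Fin (Δ + 1)) * (K * Δ), ?_⟩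
  intro R V _ _ r c hr hc hrc
  have hr' : ∀ i s, r i s < Δ + 1 := fun i s =>
    Nat.lt_succ_of_le ((Finset.single_le_sum (f := fun s => r i s) (fun _ _ => Nat.zero_le _) (mem_univ s)).trans (hr i))
  have hc' : ∀ v s, c v s < Δ + 1 := fun v s =>
    Nat.lt_succ_of_le ((Finset.single_le_sum (f := fun s => c v s) (fun _ _ => Nat.zero_le _) (mem_univ s)).trans (hc v))
  obtain ⟨cr, hcr⟩ : ∃ cr : R → S → Fin (Δ + 1), ∀ i s, (cr i s : ℕ) = r i s :=
    ⟨fun i s => ⟨r i s, hr' i s⟩, fun _ _ => rfl⟩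
  obtain ⟨cc, hcc⟩ : ∃ cc : V → S → Fin (Δ + 1), ∀ v s, (cc v s : ℕ) = c v s :=
    ⟨fun v s => ⟨c v s, hc' v s⟩, fun _ _ => rfl⟩
  have hsum : ∀ s, ∑ j, ((Sum.elim (fun u => cnt cr u) (fun u => cnt cc u) j : ℕ) : ℤ) *
      Sum.elim (fun u => ((u s : ℕ) : ℤ)) (fun u => -((u s : ℕ) : ℤ)) j = 0 := by
    intro s
    rw [Fintype.sum_sum_type]
    simp only [Sum.elim_inl, Sum.elim_inr]
    have h1 := sum_filter_cnt univ cr (fun u => (u s : ℕ))
    have h2 := sum_filter_cnt univ cc (fun u => (u s : ℕ))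
    simp only [hcr, hcc] at h1 h2
    have h3 : ∑ u : S → Fin (Δ + 1), cnt cr u * (u s : ℕ) =
        ∑ u : S → Fin (Δ + 1), cnt cc u * (u s : ℕ) := by
      unfold cnt
      rw [← h1, ← h2]
      exact hrc s
    have h4 : ∑ u : S → Fin (Δ + 1), ((cnt cr u : ℕ) : ℤ) * ((u s : ℕ) : ℤ) =
        ∑ u : S → Fin (Δ + 1), ((cnt cc u : ℕ) : ℤ) * ((u s : ℕ) : ℤ) := by
      exact_mod_cast h3
    simp only [mul_neg, Finset.sum_neg_distrib, h4, add_neg_cancel]
  obtain ⟨m', hm1, hm2, hm3, hm4⟩ := hK (Sum.elim (fun u => cnt cr u) (fun u => cnt cc u)) hsum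
  obtain ⟨R0, hR1, hR2⟩ := split cr (fun u => m' (Sum.inl u)) fun u => hm1 (Sum.inl u)
  obtain ⟨V0, hV1, hV2⟩ := split cc (fun u => m' (Sum.inr u)) fun u => hm1 (Sum.inr u)
  obtain ⟨n, e, he1, he2, he3⟩ := pairing R0ᶜ cr fun u => by
    rw [hR2]
    exact hm4 (Sum.inl u)
  have he3' : ∀ l s, r (e (l, true)) s = r (e (l, false)) s := fun l s => by
    rw [← hcr, ← hcr, he3]
  -- sums
  have hk : ∀ s, ∑ i ∈ R0, r i s = ∑ v ∈ V0, c v s := by
    intro s
    have h1 := sum_filter_cnt R0 cr (fun u => (u s : ℕ))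
    have h2 := sum_filter_cnt V0 cc (fun u => (u s : ℕ))
    simp only [hcr, hcc] at h1 h2
    have h3 := hm3 s
    rw [Fintype.sum_sum_type] at h3
    simp only [Sum.elim_inl, Sum.elim_inr, mul_neg, Finset.sum_neg_distrib] at h3
    rw [h1, h2]
    have h4 : ∑ u : S → Fin (Δ + 1), ((m' (Sum.inl u) : ℕ) : ℤ) * ((u s : ℕ) : ℤ) =
        ∑ u : S → Fin (Δ + 1), ((m' (Sum.inr u) : ℕ) : ℤ) * ((u s : ℕ) : ℤ) := by linarith
    have h5 : ∑ u : S → Fin (Δ + 1), m' (Sum.inl u) * (u s : ℕ) =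
        ∑ u : S → Fin (Δ + 1), m' (Sum.inr u) * (u s : ℕ) := by exact_mod_cast h4
    simpa only [hR1, hV1] using h5
  have hkK : ∀ s, ∑ i ∈ R0, r i s ≤ Fintype.card (S → Fin (Δ + 1)) * (K * Δ) := by
    intro s
    have h1 := sum_filter_cnt R0 cr (fun u => (u s : ℕ))
    simp only [hcr, hR1] at h1
    rw [h1]
    refine (Finset.sum_le_card_nsmul _ _ (K * Δ) fun u _ =>
      Nat.mul_le_mul (hm2 _) (Nat.lt_succ_iff.1 (u s).2)).trans (le_of_eq ?_)
    rw [smul_eq_mul, Finset.card_univ]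
  have hM : ∀ s, ∑ i ∈ R0ᶜ, r i s = 2 * ∑ l, r (e (l, false)) s := by
    intro s
    have h1 : R0ᶜ = univ.image e := by
      ext i
      rw [he2]
      simp only [mem_image, mem_univ, true_and]
    rw [h1, Finset.sum_image fun p _ q _ hpq => he1 hpq, Fintype.sum_prod_type]
    simp only [Fintype.sum_bool, he3', ← two_mul, ← Finset.mul_sum]
  -- columns
  let V' : Finset V := univ.filter fun v => v ∉ V0 ∧ ∃ s, c v s ≠ 0
  have hV' : ∀ s, ∑ v ∈ V', c v s = ∑ v ∈ V0ᶜ, c v s := by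
    intro s
    refine Finset.sum_subset (fun v hv => mem_compl.2 (mem_filter.1 hv).2.1) fun v hv hv' => ?_
    by_contra h0
    exact hv' (mem_filter.2 ⟨mem_univ _, mem_compl.1 hv, s, h0⟩)
  have hcol : ∀ s, ∑ v ∈ V', c v s = 2 * ∑ l, r (e (l, false)) s := by
    intro s
    have h1 := Finset.sum_add_sum_compl R0 (fun i => r i s)
    have h2 := Finset.sum_add_sum_compl V0 (fun v => c v s)
    have h3 := hrc s
    have h4 := hk s
    have h5 := hM s
    have h6 := hV' s
    omega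
  -- the maps
  have hal : ∀ s, ∃ f : Fin (∑ l, r (e (l, false)) s) → Fin n, ∀ l, cnt f l = r (e (l, false)) s :=
    fun s => exists_map _ (by simp)
  choose al hal using hal
  have har : ∀ s, ∃ f : Fin (∑ i ∈ R0, r i s) → R, ∀ i, cnt f i = if i ∈ R0 then r i s else 0 :=
    fun s => exists_map _ (by simp)
  choose ar har using har
  have hbl : ∀ s, ∃ f : Fin (∑ l, r (e (l, false)) s) × Bool → V,
      ∀ v, cnt f v = if v ∈ V' then c v s else 0 :=
    fun s => exists_map _ (by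
      rw [Finset.sum_ite_mem, univ_inter, hcol]
      simp [mul_comm])
  choose bl hbl using hbl
  have hbr : ∀ s, ∃ f : Fin (∑ i ∈ R0, r i s) → V, ∀ v, cnt f v = if v ∈ V0 then c v s else 0 :=
    fun s => exists_map _ (by
      rw [Finset.sum_ite_mem, univ_inter, ← hk]
      simp)
  choose br hbr using hbr
  have hmem : ∀ {Y A : Type} [Fintype Y] (f : Y → A) (Z : Finset A) (g : A → ℕ),
      (∀ a, cnt f a = if a ∈ Z then g a else 0) → ∀ y, f y ∈ Z := by
    intro Y A _ f Z g hf y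
    by_contra h0
    have h1 := cnt_ne_zero f y
    rw [hf, if_neg h0] at h1
    exact h1 rfl
  refine ⟨fun s => ∑ l, r (e (l, false)) s, fun s => ∑ i ∈ R0, r i s, n, al, e, V',
    fun s => Sum.elim (fun q => e (al s q.1, q.2)) (ar s), fun s => Sum.elim (bl s) (br s),
    hkK, he1, fun _ _ _ => rfl, fun s j p hp => ?_, fun s q => hmem _ _ _ (hbl s) q,
    fun s j hj => ?_, fun i s => ?_, fun v s => ?_, fun v hv => (mem_filter.1 hv).2.2, fun u => ?_⟩
  · have h1 : ar s j ∈ R0 := hmem _ _ _ (har s) j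
    have h2 : ar s j ∈ R0ᶜ := (he2 _).2 ⟨p, hp.symm⟩
    exact mem_compl.1 h2 h1
  · exact (mem_filter.1 hj).2.1 (hmem _ _ _ (hbr s) j)
  · rw [cnt_elim, har]
    by_cases hi : i ∈ R0
    · rw [if_pos hi]
      have h1 : cnt (fun q : Fin (∑ l, r (e (l, false)) s) × Bool => e (al s q.1, q.2)) i = 0 := by
        unfold cnt
        rw [Finset.card_eq_zero, Finset.filter_eq_empty_iff]
        intro q _ hq
        exact mem_compl.1 ((he2 i).2 ⟨_, hq⟩) hi
      rw [h1, zero_add]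
    · rw [if_neg hi, add_zero]
      obtain ⟨⟨l0, β0⟩, rfl⟩ := (he2 i).1 (mem_compl.2 hi)
      have h1 : cnt (fun q : Fin (∑ l, r (e (l, false)) s) × Bool => e (al s q.1, q.2)) (e (l0, β0)) =
          cnt (al s) l0 := by
        unfold cnt
        rw [Finset.card_filter, Finset.card_filter, Fintype.sum_prod_type]
        refine Finset.sum_congr rfl fun x _ => ?_
        simp only [he1.eq_iff, Prod.mk.injEq, Fintype.sum_bool]
        by_cases hx : al s x = l0 <;> cases β0 <;> simp [hx]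
      rw [h1, hal]
      cases β0
      · rfl
      · exact (he3' l0 s).symm
  · rw [cnt_elim, hbl, hbr]
    by_cases hv : v ∈ V0
    · have h1 : v ∉ V' := fun h2 => (mem_filter.1 h2).2.1 hv
      rw [if_neg h1, if_pos hv, zero_add]
    · rw [if_neg hv, add_zero]
      by_cases hv' : v ∈ V'
      · rw [if_pos hv']
      · rw [if_neg hv']
        by_contra h0
        exact hv' (mem_filter.2 ⟨mem_univ _, hv, s, fun h3 => h0 h3.symm⟩)
  · rcases Finset.eq_empty_or_nonempty (V'.filter fun v => c v = u) with h0 | ⟨v0, hv0⟩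
    · rw [h0]
      simp
    · obtain ⟨hv1, rfl⟩ := mem_filter.1 hv0
      obtain ⟨h3, s0, h4⟩ := (mem_filter.1 hv1).2
      have h1 : (V'.filter fun v => c v = c v0) = V0ᶜ.filter fun v => cc v = cc v0 := by
        ext v
        have h2 : c v = c v0 ↔ cc v = cc v0 := by
          constructor
          · intro h3
            funext s
            apply Fin.ext
            rw [hcc, hcc, h3]
          · intro h3
            funext s
            rw [← hcc, ← hcc, h3]
        simp only [mem_filter, mem_univ, true_and, mem_compl, V', ← h2]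
        constructor
        · rintro ⟨⟨h5, _⟩, h6⟩
          exact ⟨h5, h6⟩
        · rintro ⟨h5, h6⟩
          exact ⟨⟨h5, s0, by rw [h6]; exact h4⟩, h6⟩
      have h7 := hm4 (Sum.inr (cc v0))
      have h8 := hV2 (cc v0)
      rw [show (Sum.elim (fun u => cnt cr u) (fun u => cnt cc u) (Sum.inr (cc v0)) : ℕ) =
        cnt cc (cc v0) from rfl, ← h8] at h7
      rw [h1]
      convert h7

end Pool.Agent.L0h9.KC
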